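import Pool.Agent.Run7.h894.Sub

/-!
# Explicit matrices with the `m`-RIP and `O((m d)^{3/5} (log d)^{12/5})` rows

The rows are the triples `(t, x, y)` with `t` a nonzero and `x`, `y` arbitrary residues modulo the
prime `p`, the columns are the quadruples `(c, b₁, b₂, a)` with `c < L`, `a < A`, and the entry is
`exp (2 π i t (c (x² - ν y²) + b₁ x + b₂ y + a) / p)` with a quadratic nonresidue `ν`.
-/

namespace Pool.Agent.Results.MP_e0e10a_lc.ThreeFifths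

open Run7.h894

theorem result (m d : ℕ) (hd : 2 ≤ d) (hdm : d ≤ m ^ 4)
    (hlarge : (10 : ℝ) ^ 52 * (m ^ 3 * (Real.log d) ^ 12) ≤ (d : ℝ) ^ 2) :
    (∃ p : ℕ, p.Prime ∧ (10 : ℝ) ^ 20 * (m * d * (Real.log d) ^ 4) ≤ (p : ℝ) ^ 5 ∧
      (p : ℝ) ^ 5 ≤ (10 : ℝ) ^ 24 * (m * d * (Real.log d) ^ 4)) ∧
    ∀ (p : ℕ) [Fact p.Prime] (ν : ZMod p) (L A : ℕ),
      (10 : ℝ) ^ 20 * (m * d * (Real.log d) ^ 4) ≤ (p : ℝ) ^ 5 →
      (p : ℝ) ^ 5 ≤ (10 : ℝ) ^ 24 * (m * d * (Real.log d) ^ 4) →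
      ¬ IsSquare ν → A = p / 30 → L = d / (A * p ^ 2) + 1 →
        (Fintype.card ((ZMod p)ˣ × ZMod p × ZMod p) : ℝ) ≤
          10 ^ 15 * ((m : ℝ) * d) ^ ((3 : ℝ) / 5) * (Real.log d) ^ ((12 : ℝ) / 5) ∧
        d ≤ Fintype.card (Fin L × ZMod p × ZMod p × Fin A) ∧
        ∀ e : Fin d → Fin L × ZMod p × ZMod p × Fin A, Function.Injective e →
          HasRIP m ((Phi p ν L A).submatrix id e) := by
  have h : InRange m d := ⟨hd, hdm, hlarge⟩
  refine ⟨window_exists h, ?_⟩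
  intro p _ ν L A hw1 hw2 hν hA hL
  subst hA
  subst hL
  have hw : InWindow m d p := ⟨hw1, hw2⟩
  obtain ⟨h1, h2, h3, h4⟩ := params_ok h hw
  obtain ⟨_, hp4, _, _⟩ := window_facts h hw
  have hp : 10 ^ 4 ≤ p := by exact_mod_cast hp4
  refine ⟨?_, ?_, ?_⟩
  · refine le_trans ?_ (rows_le h hw)
    have h5 : Fintype.card ((ZMod p)ˣ × ZMod p × ZMod p) = (p - 1) * (p * p) := by
      rw [Fintype.card_prod, Fintype.card_prod, ZMod.card, ZMod.card_units_eq_totient,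
        Nat.totient_prime (Fact.out : p.Prime)]
    have h6 : Fintype.card ((ZMod p)ˣ × ZMod p × ZMod p) ≤ p ^ 3 := by
      rw [h5]
      calc (p - 1) * (p * p) ≤ p * (p * p) := Nat.mul_le_mul_right _ (Nat.sub_le _ _)
        _ = p ^ 3 := by ring
    exact_mod_cast h6
  · rw [Fintype.card_prod, Fintype.card_prod, Fintype.card_prod, ZMod.card, Fintype.card_fin,
      Fintype.card_fin]
    exact h4
  · intro e he
    exact (rip_phi p (by omega) ν hν _ _ m (Nat.le_add_left 1 _) h1 h2 h3).sub e he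

end Pool.Agent.Results.MP_e0e10a_lc.ThreeFifths
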